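import Pool.Agent.H24.UG.T4
import Pool.Agent.H96.AG.ER

/-!
UNIFORM LOCAL GAP: the row UER, the density of the errors.
-/

set_option autoImplicit false

open MeasureTheory ProbabilityTheory Filter Topology Finset
open scoped Nat ENNReal

namespace Pool.Agent.H68.ULG

open Pool.Agent.H24.UG
open Pool.Agent.H24.T2 (Pset)
open Pool.Agent.H67.AG (avgP ul Inv Rt Av SA kap JJ TT InvZ nxt triv tow XN PN TN XX PX TX prX Fac
  Tup dl Dlt Mis bd κ₀ Sw SwE T_UL)
open Pool.Agent.H96.AG.ER (avgP_add avgP_mul avgP_abs avgP_nonneg avgP_le avgP_congr ul_le le_ul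
  ul_abs int_bd riesz Rt_le inv_Rt)

/-! ### the functional -/

section

variable {X : Type} [mX : MeasurableSpace X] (μ : Measure X)
  (s : ℕ → ℝ) (B : ℕ → Set X) (Wf : ℕ → ℕ) (V : Ultrafilter ℕ) (U : ℕ → Ultrafilter ℕ)

/-- the averages -/
noncomputable def inr (f : X → ℝ) (w m : ℕ) : ℝ :=
  avgP (Wf w) m fun p => s p * ∫ x in B p, f x ∂μ

/-- the limit -/
noncomputable def ell (f : X → ℝ) : ℝ := ul V fun w => ul (U w) (inr μ s B Wf f w)

theorem inr_abs (hs : ∀ p, 0 ≤ s p ∧ s p ≤ 1) (f : X → ℝ) (hf : Integrable f μ) (w m : ℕ) :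
    |inr μ s B Wf f w m| ≤ ∫ x, |f x| ∂μ :=
  avgP_abs _ _ _ _ (integral_nonneg fun _ => abs_nonneg _) fun p => by
    rw [abs_mul, abs_of_nonneg (hs p).1]
    have h1 := int_bd μ f hf (B p)
    have h2 := abs_nonneg (∫ x in B p, f x ∂μ)
    calc s p * |∫ x in B p, f x ∂μ| ≤ 1 * |∫ x in B p, f x ∂μ| :=
          mul_le_mul_of_nonneg_right (hs p).2 h2
      _ ≤ _ := by rw [one_mul]; exact h1

variable {V U s}

theorem ell_abs (hul : T_UL) (hs : ∀ p, 0 ≤ s p ∧ s p ≤ 1) (f : X → ℝ) (hf : Integrable f μ) :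
    |ell μ s B Wf V U f| ≤ ∫ x, |f x| ∂μ :=
  ul_abs hul V _ _ fun w => ul_abs hul (U w) _ _ fun m => inr_abs μ s B Wf hs f hf w m

theorem ell_lim (hul : T_UL) (hs : ∀ p, 0 ≤ s p ∧ s p ≤ 1) (f : X → ℝ) (hf : Integrable f μ) :
    Tendsto (fun w => ul (U w) (inr μ s B Wf f w)) (V : Filter ℕ) (𝓝 (ell μ s B Wf V U f)) :=
  (hul V).1 _ ⟨_, fun w => ul_abs hul (U w) _ _ fun m => inr_abs μ s B Wf hs f hf w m⟩

theorem ell_add (hul : T_UL) (hs : ∀ p, 0 ≤ s p ∧ s p ≤ 1) (f g : X → ℝ) (hf : Integrable f μ)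
    (hg : Integrable g μ) :
    ell μ s B Wf V U (fun x => f x + g x) = ell μ s B Wf V U f + ell μ s B Wf V U g := by
  unfold ell
  rw [← (hul V).2.2.1 _ _ ⟨_, fun w => ul_abs hul (U w) _ _ fun m => inr_abs μ s B Wf hs f hf w m⟩
    ⟨_, fun w => ul_abs hul (U w) _ _ fun m => inr_abs μ s B Wf hs g hg w m⟩]
  congr 1
  funext w
  rw [← (hul (U w)).2.2.1 _ _ ⟨_, fun m => inr_abs μ s B Wf hs f hf w m⟩
    ⟨_, fun m => inr_abs μ s B Wf hs g hg w m⟩]
  congr 1
  funext m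
  unfold inr
  rw [← avgP_add]
  congr 1
  funext p
  rw [← mul_add]
  congr 1
  exact integral_add hf.integrableOn hg.integrableOn

theorem ell_mul (hul : T_UL) (hs : ∀ p, 0 ≤ s p ∧ s p ≤ 1) (a : ℝ) (f : X → ℝ)
    (hf : Integrable f μ) :
    ell μ s B Wf V U (fun x => a * f x) = a * ell μ s B Wf V U f := by
  unfold ell
  rw [← (hul V).2.2.2.1 _ _
    ⟨_, fun w => ul_abs hul (U w) _ _ fun m => inr_abs μ s B Wf hs f hf w m⟩]
  congr 1
  funext w
  rw [← (hul (U w)).2.2.2.1 _ _ ⟨_, fun m => inr_abs μ s B Wf hs f hf w m⟩]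
  congr 1
  funext m
  unfold inr
  rw [← avgP_mul]
  congr 1
  funext p
  rw [integral_const_mul]
  ring

theorem ell_congr (f g : X → ℝ) (h : f =ᵐ[μ] g) : ell μ s B Wf V U f = ell μ s B Wf V U g := by
  unfold ell
  congr 1
  funext w
  congr 1
  funext m
  unfold inr
  congr 1
  funext p
  congr 1
  exact integral_congr_ae (ae_restrict_of_ae h)

theorem ell_nonneg (hul : T_UL) (hs : ∀ p, 0 ≤ s p ∧ s p ≤ 1) (f : X → ℝ) (hf : Integrable f μ)
    (h : ∀ x, 0 ≤ f x) : 0 ≤ ell μ s B Wf V U f :=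
  le_ul hul V _ _ ⟨_, fun w => ul_abs hul (U w) _ _ fun m => inr_abs μ s B Wf hs f hf w m⟩
    (Eventually.of_forall fun w => le_ul hul (U w) _ _ ⟨_, fun m => inr_abs μ s B Wf hs f hf w m⟩
      (Eventually.of_forall fun _ => avgP_nonneg _ _ _ fun p =>
        mul_nonneg (hs p).1 (integral_nonneg h)))

theorem ell_le (hul : T_UL) (hs : ∀ p, 0 ≤ s p ∧ s p ≤ 1) (f : X → ℝ) (hf : Integrable f μ)
    (C : ℝ) (hC : 0 ≤ C) (h : ∀ p, ∫ x in B p, f x ∂μ ≤ C) :
    ell μ s B Wf V U f ≤ C :=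
  ul_le hul V _ _ ⟨_, fun w => ul_abs hul (U w) _ _ fun m => inr_abs μ s B Wf hs f hf w m⟩
    (Eventually.of_forall fun w => ul_le hul (U w) _ _ ⟨_, fun m => inr_abs μ s B Wf hs f hf w m⟩
      (Eventually.of_forall fun _ => avgP_le _ _ _ _ hC fun p => by
        calc s p * ∫ x in B p, f x ∂μ ≤ s p * C := mul_le_mul_of_nonneg_left (h p) (hs p).1
          _ ≤ 1 * C := mul_le_mul_of_nonneg_right (hs p).2 hC
          _ = C := one_mul C))

end

theorem pf_UER (hul : Pool.Agent.H67.AG.T_UL) : T_UER := by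
  intro c
  let Bs : ℕ → Set c.X := fun p => c.Y ∩ bd c.T c.β (c.σ p) (fun i x => c.D (c.T^[c.β i] x)) p
  let Wf : ℕ → ℕ := fun w => (c.Q * w !)
  let s : ℕ → ℝ := fun p => |c.σ p|
  have hs : ∀ p, 0 ≤ s p ∧ s p ≤ 1 := by
    intro p
    refine ⟨abs_nonneg _, ?_⟩
    show |c.σ p| ≤ 1
    rcases c.σv p with h | h | h <;> rw [h] <;> norm_num
  have hm : Rt c.T ≤ c.mX := Rt_le c.T
  have hYR : MeasurableSet[Rt c.T] c.Y := inv_Rt c.T c.Q c.Qpos c.Y c.Ym c.Yinv
  let L : (c.X → ℝ) → ℝ := ell c.μ s Bs Wf c.V c.U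
  have hpr : IsProbabilityMeasure (c.μ.trim hm) := ⟨by
    rw [trim_measurableSet_eq hm MeasurableSet.univ]
    exact measure_univ⟩
  have hiR : ∀ f : c.X → ℝ, Integrable f (c.μ.trim hm) → Integrable f c.μ :=
    fun f hf => integrable_of_integrable_trim hm hf
  have hreal : ∀ s, MeasurableSet[Rt c.T] s → (c.μ.trim hm).real s = c.μ.real s := by
    intro s hs
    rw [measureReal_def, measureReal_def, trim_measurableSet_eq hm hs]
  have hindi : ∀ s, MeasurableSet[Rt c.T] s →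
      Integrable (s.indicator fun _ => (1 : ℝ)) c.μ := fun s hs =>
    (integrable_const 1).indicator (hm s hs)
  obtain ⟨e, hem, heb, her⟩ := riesz (c.μ.trim hm) L
    (fun f g h => ell_congr c.μ Bs Wf f g (ae_eq_of_ae_eq_trim h))
    (fun f g hf hg => ell_add c.μ Bs Wf hul hs f g (hiR f hf) (hiR g hg))
    (fun a f hf => ell_mul c.μ Bs Wf hul hs a f (hiR f hf))
    (fun f hf => by
      refine (ell_abs c.μ Bs Wf hul hs f (hiR f hf)).trans (le_of_eq ?_)
      exact integral_trim_ae hm hf.abs.aestronglyMeasurable)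
    c.Y hYR
    (fun s' hs' => ell_nonneg c.μ Bs Wf hul hs _ (hindi s' hs') fun x => Set.indicator_nonneg
      (fun _ _ => zero_le_one) x)
    (fun s' hs' => by
      refine ell_le c.μ Bs Wf hul hs _ (hindi s' hs') _ measureReal_nonneg fun p => ?_
      rw [setIntegral_indicator (hm s' hs'), setIntegral_const, smul_eq_mul, mul_one,
        hreal _ (hs'.inter hYR)]
      refine measureReal_mono fun x hx => ⟨hx.2, hx.1.1⟩)
  refine ⟨e, hem, heb, ?_, fun ψ hψ hψb => ?_⟩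
  · have h1 : L (fun _ => 1) = ∫ x in c.Y, e x ∂c.μ := by
      have h2 := her (fun _ => (1 : ℝ)) measurable_const ⟨1, fun _ => by simp⟩
      simp only [one_mul] at h2
      rw [h2]
      exact (setIntegral_trim hm hem.stronglyMeasurable hYR).symm
    rw [← h1]
    refine ul_le hul c.V _ _ ⟨_, fun w => ul_abs hul (c.U w) _ _ fun m =>
      inr_abs c.μ s Bs Wf hs _ (integrable_const 1) w m⟩ ?_
    filter_upwards [c.rel] with w hw
    refine le_of_eq_of_le ?_ hw
    congr 1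
    funext m
    unfold inr
    refine avgP_congr _ _ _ _ fun p hp => ?_
    have hp1 : 1 ≤ p := (Finset.mem_filter.1 hp).2.1.one_le
    have hB : Bs p = c.Y ∩ {x | ∏ i, c.D (c.T^[p * c.β i] x) ≠ c.σ p} := by
      have h3 : ∀ (i : Fin c.k) (x : c.X),
          c.T^[c.β i] (c.T^[(p - 1) * c.β i] x) = c.T^[p * c.β i] x := by
        intro i x
        rw [← Function.iterate_add_apply]
        congr 2
        obtain ⟨q, rfl⟩ := Nat.exists_eq_add_of_le hp1
        rw [Nat.add_sub_cancel_left]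
        ring
      simp only [Bs, bd, h3]
    rw [setIntegral_const, smul_eq_mul, mul_one, hB]
  · have h1 : L ψ = ∫ x in c.Y, ψ x * e x ∂c.μ := by
      rw [her ψ hψ ⟨1, hψb⟩]
      exact (setIntegral_trim hm (hψ.mul hem).stronglyMeasurable hYR).symm
    rw [← h1]
    exact ell_lim c.μ Bs Wf hul hs ψ
      (Integrable.of_bound (hψ.mono hm le_rfl).aestronglyMeasurable 1 (ae_of_all _ hψb))

end Pool.Agent.H68.ULG
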