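import Pool.Agent.H24.UG.T4
import Pool.Agent.H69.AG.LE

/-!
UNIFORM LOCAL GAP: the row ULE, the limit of the errors on a joint system.
-/

set_option autoImplicit false

open MeasureTheory ProbabilityTheory Filter Topology Finset
open scoped Nat ENNReal

namespace Pool.Agent.H68.ULG

open Pool.Agent.H24.UG
open Pool.Agent.H24.T2 (Pset)
open Pool.Agent.H67.AG (avgP ul Inv Rt Av SA kap JJ TT InvZ nxt triv tow XN PN TN XX PX TX prX Fac
  Tup dl Dlt Mis bd κ₀ Sw SwE)

lemma dt_meas (c : Cx) (i : Fin c.k) : Measurable (c.Dt i) :=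
  c.Dm.comp (c.T.measurable.iterate _)

lemma bd_meas (c : Cx) (p : ℕ) : MeasurableSet (bd c.T c.β (c.σ p) c.Dt p) := by
  have h1 : Measurable fun x : c.X => ∏ i, c.Dt i (c.T^[(p - 1) * c.β i] x) :=
    Finset.measurable_prod _ fun i _ => (dt_meas c i).comp (c.T.measurable.iterate _)
  have h2 : bd c.T c.β (c.σ p) c.Dt p = {x | ∏ i, c.Dt i (c.T^[(p - 1) * c.β i] x) = c.σ p}ᶜ := by
    ext x
    rfl
  rw [h2]
  exact (measurableSet_eq_fun h1 measurable_const).compl

theorem pf_ULE (hdu : Pool.Agent.H67.AG.T_DU) : T_ULE := by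
  intro c Ω mΩ P hP T g A hT hg hA hAY
  have hAm : MeasurableSet A := Pool.Agent.H69.AG.rt_le T _ hA
  have hgm : Measurable g := hg.1.measurable
  have hTc : MeasurePreserving c.T c.μ c.μ := c.erg.toMeasurePreserving
  have hind : Measurable[Rt T] (A.indicator fun _ => (1 : ℝ)) :=
    Measurable.indicator measurable_const hA
  obtain ⟨ψ, hψ1, hψ2, hψ3⟩ := hdu Ω c.X P c.μ T c.T g (A.indicator fun _ => (1 : ℝ)) hT hTc hg
    hind fun ω => by
      by_cases h : ω ∈ A
      · rw [Set.indicator_of_mem h]; norm_num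
      · rw [Set.indicator_of_notMem h]; norm_num
  -- integrals of functions which come from the base
  have key : ∀ h : c.X → ℝ, Measurable h → (∃ C, ∀ x, |h x| ≤ C) →
      ∫ ω in A, h (g ω) ∂P = ∫ x in c.Y, ψ x * h x ∂c.μ := by
    intro h hm ⟨C, hC⟩
    have h1 := hψ3 (c.Y.indicator h) (hm.indicator c.Ym) ⟨C, fun x => by
      by_cases hx : x ∈ c.Y
      · rw [Set.indicator_of_mem hx]; exact hC x
      · rw [Set.indicator_of_notMem hx, abs_zero]; exact (abs_nonneg _).trans (hC x)⟩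
    have h2 : (fun ω => A.indicator (fun _ => (1 : ℝ)) ω * c.Y.indicator h (g ω)) =
        A.indicator fun ω => h (g ω) := by
      funext ω
      by_cases hω : ω ∈ A
      · rw [Set.indicator_of_mem hω, Set.indicator_of_mem hω,
          Set.indicator_of_mem (show g ω ∈ c.Y from hAY hω), one_mul]
      · rw [Set.indicator_of_notMem hω, Set.indicator_of_notMem hω, zero_mul]
    have h3 : (fun x => ψ x * c.Y.indicator h x) = c.Y.indicator fun x => ψ x * h x := by
      funext x
      by_cases hx : x ∈ c.Y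
      · rw [Set.indicator_of_mem hx, Set.indicator_of_mem hx]
      · rw [Set.indicator_of_notMem hx, Set.indicator_of_notMem hx, mul_zero]
    rw [h2, h3, integral_indicator hAm, integral_indicator c.Ym] at h1
    exact h1
  have hbd : ∀ p, P.real (A ∩ bd T c.β (c.σ p) (fun i ω => c.Dt i (g ω)) p) =
      ∫ x in c.Y ∩ bd c.T c.β (c.σ p) c.Dt p, ψ x ∂c.μ := by
    intro p
    have hB := bd_meas c.toCx p
    have h1 : bd T c.β (c.σ p) (fun i ω => c.Dt i (g ω)) p =
        g ⁻¹' bd c.T c.β (c.σ p) c.Dt p := by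
      ext ω
      change (∏ i, c.Dt i (g (T^[(p - 1) * c.β i] ω)) ≠ c.σ p) ↔
        (∏ i, c.Dt i (c.T^[(p - 1) * c.β i] (g ω)) ≠ c.σ p)
      simp only [Pool.Agent.H69.AG.semi_iter hg.2]
    have h2 := key ((bd c.T c.β (c.σ p) c.Dt p).indicator fun _ => (1 : ℝ))
      (measurable_const.indicator hB) ⟨1, fun x => by
        by_cases hx : x ∈ bd c.T c.β (c.σ p) c.Dt p
        · rw [Set.indicator_of_mem hx]; norm_num
        · rw [Set.indicator_of_notMem hx]; norm_num⟩
    have h3 : (fun ω => (bd c.T c.β (c.σ p) c.Dt p).indicator (fun _ => (1 : ℝ)) (g ω)) =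
        (g ⁻¹' bd c.T c.β (c.σ p) c.Dt p).indicator fun _ => (1 : ℝ) := by
      funext ω
      rfl
    have h4 : (fun x => ψ x * (bd c.T c.β (c.σ p) c.Dt p).indicator (fun _ => (1 : ℝ)) x) =
        (bd c.T c.β (c.σ p) c.Dt p).indicator ψ := by
      funext x
      by_cases hx : x ∈ bd c.T c.β (c.σ p) c.Dt p
      · rw [Set.indicator_of_mem hx, Set.indicator_of_mem hx, mul_one]
      · rw [Set.indicator_of_notMem hx, Set.indicator_of_notMem hx, mul_zero]
    rw [h3, h4, setIntegral_indicator (hgm hB), setIntegral_indicator hB, setIntegral_const,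
      smul_eq_mul, mul_one] at h2
    rw [h1]
    exact h2
  have h5 := c.elim ψ hψ1 fun x => abs_le.2 ⟨by linarith [(hψ2 x).1], (hψ2 x).2⟩
  rw [← key c.e (c.em.mono (Pool.Agent.H69.AG.rt_le c.T) le_rfl) ⟨1, fun x => abs_le.2
    ⟨by linarith [(c.e0 x).1], (c.e0 x).2⟩⟩] at h5
  have h6 : (fun w => Lm (c.U w) (c.W w) P T c.β c.σ (fun i ω => c.Dt i (g ω)) A) =
      fun w => ul (c.U w) fun m => avgP (c.Q * w !) m fun p =>
      |c.σ p| * ∫ x in c.Y ∩ bd c.T c.β (c.σ p) (fun i x => c.D (c.T^[c.β i] x)) p, ψ x ∂c.μ := by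
    funext w
    unfold Lm
    simp only [hbd]
    rfl
  rw [h6]
  exact h5

end Pool.Agent.H68.ULG
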